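import Pool.Agent.Helper16.DIL.Asm

/-!
# Large values of Dirichlet polynomials at generic dilates of arbitrary sets of integers

Let `x_1, …, x_R` be ARBITRARY distinct integers, `R ≤ N^B`, of diameter at most `D`, and let
`c_1, …, c_R` be arbitrary real numbers. For all dilations `l` of an arbitrary interval of length
`L ≥ N^(E D)`, outside a set of measure at most `N^(-A) L`, the points `t_j = c_j + l x_j` satisfy the
mean value estimate `∑_j |D(i t_j)|² ≤ C N^ε (N + R) ∑ |a_n|²` for ALL coefficients, hence the bound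
`R ≤ 2 C N^(2+ε) / V²` of the problem in the full range `V² ≥ 2 C N^(1+ε)`.

Proof: the mean value over `l` of the trace of a high power of the matrix
`(∑_{n ≤ N} n^(-i (t_j - t_j')))_{j, j'}` counts the solutions of
`∏ n_i ^ (x_{w_i} - x_{w_{i+1}}) = 1`. The vectors of the exponents of the primes in
`n = (n_1, …, n_k)` and the constant vector span a space of dimension `s ≤ k`; it determines `n` up to
`N^s` choices, there are at most `(log₂ N + 1)^(k²)` such spaces, and `w` satisfies a linear system of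
rank `s - 1`; so there are at most `k (log₂ N + 1)^(k²) (N + R)^(k+1)` solutions, whatever the integers
`x_j` are.
-/

set_option autoImplicit false

namespace Pool.Agent.Results.MP_a93a41_nt.GenericDilates

open Finset MeasureTheory

/-- The mean value estimate with the constant `Y` at the points `t j` for all Dirichlet polynomials
of length `N`, and the resulting bounds for the number of large values: (2) the bound of Q1 if the
polynomial is at least `V` at all the points, in the range `V² ≥ 2 Y N`; (3) if there are at most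
`N` points, the bound of Q1 for all subfamilies, for every `V`. -/
def Bounds (N : ℕ) (Y : ℝ) {R : ℕ} (t : Fin R → ℝ) : Prop :=
  (∀ a : ℕ → ℂ, ∑ j, ‖∑ n ∈ Icc 1 N, a n * (n : ℂ) ^ (-((t j : ℂ) * Complex.I))‖ ^ 2 ≤
    Y * (N + R) * ∑ n ∈ Icc 1 N, ‖a n‖ ^ 2) ∧
  (∀ (a : ℕ → ℂ) (V : ℝ), (∀ n, ‖a n‖ ≤ 1) → 0 < V → 2 * Y * N ≤ V ^ 2 →
    (∀ j, V ≤ ‖∑ n ∈ Icc 1 N, a n * (n : ℂ) ^ (-((t j : ℂ) * Complex.I))‖) →
    (R : ℝ) ≤ 2 * Y * N ^ 2 / V ^ 2) ∧
  (R ≤ N → ∀ (a : ℕ → ℂ) (V : ℝ) (S : Finset (Fin R)), (∀ n, ‖a n‖ ≤ 1) → 0 < V →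
    (∀ j ∈ S, V ≤ ‖∑ n ∈ Icc 1 N, a n * (n : ℂ) ^ (-((t j : ℂ) * Complex.I))‖) →
    (S.card : ℝ) ≤ 2 * Y * N ^ 2 / V ^ 2)

/-- **Large values at generic dilates of arbitrary sets of integers.** For all `ε > 0` and
`A, B ≥ 0` there are `C` and `E` such that for all `N, D ≥ 1`, all integers `x j`, `j < R ≤ N^B`, with
`0 < |x i - x j| ≤ D`, all real `c j`, and all intervals `[u, u + L]` with `L ≥ N^(E D)`: the bounds
with the constant `C N^ε` hold at the points `c j + l x j` for all `l` in the interval outside a set of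
measure at most `N^(-A) L`. -/
theorem result (ε A B : ℝ) (hε : 0 < ε) (hA : 0 ≤ A) (hB : 0 ≤ B) :
    ∃ (C : ℝ) (E : ℕ), 0 < C ∧ ∀ (N R D : ℕ) (c : Fin R → ℝ) (x : Fin R → ℤ) (u L : ℝ),
      1 ≤ N → 1 ≤ D → (R : ℝ) ≤ (N : ℝ) ^ B → Function.Injective x → (∀ i j, |x i - x j| ≤ D) →
      (N : ℝ) ^ (E * D) ≤ L →
      volume {l : ℝ | u ≤ l ∧ l ≤ u + L ∧ ¬ Bounds N (C * (N : ℝ) ^ ε) (fun j => c j + l * x j)} ≤
        ENNReal.ofReal ((N : ℝ) ^ (-A) * L) := by
  obtain ⟨C, E, hC, h⟩ := Pool.Agent.Helper16.DIL.fin ε A B hε hA hB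
  refine ⟨C, E, hC, fun N R D c x u L hN hD hR hx hd hL => ?_⟩
  refine le_trans (measure_mono ?_) (h N R D c x u L hN hD hR hx hd hL)
  rintro l ⟨h1, h2, h3⟩
  refine ⟨h1, h2, fun h4 => h3 ?_⟩
  unfold Pool.Agent.Helper16.DIL.Bounds at h4
  rw [Fintype.card_fin] at h4
  exact h4

end Pool.Agent.Results.MP_a93a41_nt.GenericDilates
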